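import Pool.Agent.Helper84.KR.Aj
import Pool.Agent.Helper7.RD.Kv
import Pool.Agent.Helper7.GZ.Ab
import Pool.Agent.Helper36.AM.Dlow
import Pool.Agent.Helper69.DGR.Emb
import Pool.Agent.Helper18.PRM.Cls

/-! SORTED PREFIXES (1): the form of the rows of a frame over a label of any class; its exponents in the directions of
the coordinates; volumes of the class when a coordinate is added. -/

set_option autoImplicit false

namespace Pool.Agent.Helper18.SRT

open Finset Filter Topology Matrix Pool.Agent.Helper69.RK Pool.Agent.Helper31.EC Pool.Agent.Helper31.EC.Sp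
open Pool.Agent.Helper40.EL Pool.Agent.Helper89.LX Pool.Agent.Helper3.LF Pool.Agent.Helper84.MT
open Pool.Agent.Helper36.AM Pool.Agent.Helper84.KR Pool.Agent.Helper89.RAK
open Pool.Agent.Helper89.RAT (zx zv xz zv_UB Jz)
open Pool.Agent.Helper7.RD (volC volCO volC_eq volC_le_of volCO_le)
open Pool.Agent.Helper69.DGR (upx upx_Adf vol_upx)
open Pool.Agent.Helper18.PRM

noncomputable section

variable {S : Sp} {M m N D : ℕ} {E : ℕ → ℕ} {ι κ : Type}

/-! ### degrees -/

theorem cpo_deg {σ : Fin m → Fin M} (hσ : Function.Injective σ) {p : MvPolynomial (Fin M) ℝ}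
    (h : ∀ i ∈ p.vars, ∃ a, σ a = i) : (cpo σ hσ p).totalDegree ≤ p.totalDegree := by
  classical
  refine Finset.sup_le fun a ha => ?_
  have h1 : Finsupp.mapDomain σ a ∈ p.support := by
    rw [MvPolynomial.mem_support_iff, ← coeff_cpo σ hσ h]
    exact MvPolynomial.mem_support_iff.mp ha
  refine le_trans (le_of_eq ?_) (MvPolynomial.le_totalDegree h1)
  rw [Finsupp.sum_mapDomain_index_inj hσ]

/-! ### the form of the rows -/

section form
variable {Q : S.VV M} {l : Lab S} {La : Fin M → ℝ} (f : Frm Q l La)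

/-- the label with the form of the rows of the frame -/
def frf (D : ℕ) : ∀ k, FD (S.F k) (Mon M D) := rwx l D (gaq Q D).cp f.row

theorem frf_lb (D : ℕ) : lb (frf f D) = l := rfl

/-- THE FORM OF THE ROWS is admissible, any class -/
theorem frf_adfK [Finite κ] {C : LC S} {A : κ → Part S} (hl : l.DMf A) (hC : C.ev l) (h0 : ∀ i, 0 ≤ La i)
    (h1 : ∀ i, La i ≤ 1) {d : ℕ} (hd : ∀ k ω j, (f.P k ω j).totalDegree ≤ d) (hD : (d + 1) ^ M ≤ D) :
    (gaq Q D).AdfK C A (frf f D) := by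
  have hrd : ∀ k ω i, (f.row k ω i).totalDegree ≤ D := fun k ω i => (f.row_deg hd k ω i).trans hD
  obtain ⟨K, hK, hb⟩ := f.row_bd h0 h1 hd D
  refine ⟨rwx_Adf hl Q f.row hrd f.row_ms hK ?_, hC⟩
  refine typ_mono (S := l.sp) (Typ_true (S := l.sp)) ?_
  filter_upwards [hb] with n hn ω hω _
  exact (hn ω hω).1

/-- the derivative of a row in its own direction -/
theorem row_self (k : ℕ) (ω : (l k).T.Ω) (j : Fin M) (x : Fin M → ℝ) :
    MvPolynomial.eval x (dir (Pi.single j 1) (f.row k ω j)) = (S.dl (La j) k)⁻¹ := by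
  classical
  rw [eval_dir', Finset.sum_eq_single j]
  · show _ * MvPolynomial.eval x (MvPolynomial.pderiv j (MvPolynomial.C (S.dl (La j) k)⁻¹ * inv (f.P k ω) j)) = _
    rw [MvPolynomial.pderiv_C_mul, Pool.Agent.Helper7.GZ.pderiv_inv (f.tri k ω) M j j.2 j le_rfl, if_pos rfl, mul_one,
      MvPolynomial.eval_C, Pi.single_eq_same, one_mul]
  · intro i _ hi
    rw [Pi.single_eq_of_ne hi, zero_mul]
  · intro h
    exact absurd (Finset.mem_univ j) h

/-- THE EXPONENTS OF THE FORM OF THE ROWS -/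
theorem frf_zx [Finite κ] {A : κ → Part S} (hl : l.DMf A) (h0 : ∀ i, 0 ≤ La i)
    (h1 : ∀ i, La i ≤ 1) {d : ℕ} (hd : ∀ k ω j, (f.P k ω j).totalDegree ≤ d) (hD : (d + 1) ^ M ≤ D) (j : Fin M) :
    La j ≤ zx Q j (frf f D) := by
  have hrd : ∀ k ω i, (f.row k ω i).totalDegree ≤ D := fun k ω i => (f.row_deg hd k ω i).trans hD
  obtain ⟨K, hK, hb⟩ := f.row_bd h0 h1 hd D
  obtain ⟨K', hK', hgood⟩ := rwx_good l Q f.row hrd f.row_ms hK
  have hA : (gaq Q D).Adf A (frf f D) := by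
    refine rwx_Adf hl Q f.row hrd f.row_ms hK ?_
    refine typ_mono (S := l.sp) (Typ_true (S := l.sp)) ?_
    filter_upwards [hb] with n hn ω hω _
    exact (hn ω hω).1
  rw [← ul_const (La j)]
  refine ul_mono (UB_const _) (zv_UB j hA) ?_
  filter_upwards [hb, hgood] with k a1 a2
  have hn := (S.F k).pos
  have h2 : ∀ ω : (l k).T.Ω, (l k).T.μ ω ≠ 0 → La j ≤ xz Q j k ((l k).p.π ω) ((frf f D k).g ω) := by
    intro ω hω
    have hg := ((a2 _ hω).2 (a1 _ hω).1).1
    have e : (frf f D k).g ω = rwm D (f.row k ω) := hg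
    rw [e]
    have h3 := rwm_Jq (D := D) (f.row k ω) (fun i => hrd k _ i) (S.dl 1 k) (Q.v k ((l k).p.π ω)) (Pi.single j 1)
    rw [Pool.Agent.Helper89.RAT.single_dv] at h3
    have h4 := Finset.single_le_sum (f := fun i => (MvPolynomial.eval (Q.v k ((l k).p.π ω))
      (dir (Pi.single j 1) (f.row k ω i))) ^ 2) (fun i _ => sq_nonneg _) (Finset.mem_univ j)
    have h5 := h4.trans h3
    rw [row_self f] at h5
    have h6 : ((S.dl (La j) k)⁻¹) ^ 2 = 2 ^ (2 * La j * (S.F k).n) := by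
      rw [Pool.Agent.Helper7.GZ.dl_inv_eq, ← Real.rpow_natCast, ← Real.rpow_mul (by norm_num)]
      congr 1
      push_cast
      ring
    rw [h6] at h5
    have h7 : (2 : ℝ) ^ (2 * La j * (S.F k).n) ≤ Jz Q j k ((l k).p.π ω) (rwm D (f.row k ω)) := by
      unfold Jz
      linarith
    have h8 := Real.logb_le_logb_of_le (b := 2) (by norm_num) (by positivity) h7
    rw [Real.logb_rpow (by norm_num) (by norm_num)] at h8
    show La j ≤ Real.logb 2 _ / (2 * (S.F k).n)
    rw [le_div_iff₀ (by positivity)]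
    linarith
  show La j ≤ ∑ ω, (l k).T.μ ω * xz Q j k ((l k).p.π ω) ((frf f D k).g ω)
  calc La j = ∑ ω, (l k).T.μ ω * La j := by rw [← Finset.sum_mul, show (∑ ω, (l k).T.μ ω) = 1 from (l k).T.ms, one_mul]
    _ ≤ _ := Finset.sum_le_sum fun ω _ => by
      by_cases hω : (l k).T.μ ω = 0
      · rw [hω, zero_mul, zero_mul]
      · exact mul_le_mul_of_nonneg_left (h2 ω hω) ((l k).T.nn ω)

end form

/-! ### volumes -/

section vol
variable {Q : S.VV M} {C : LC S} {A : κ → Part S}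

/-- the volume decreases with the degree -/
theorem volC_deg (Q : S.VV M) (C : LC S) (A : κ → Part S) {D D' : ℕ} (h : D ≤ D') : volC C A Q D' ≤ volC C A Q D := by
  obtain ⟨x, hx⟩ := (gaq Q D).exists_optfK C A
  rw [volC_eq hx]
  have h1 : (gaq Q D').AdfK C A (fun k => upx h (x k)) := ⟨upx_Adf h hx.1.1, hx.1.2⟩
  exact (volC_le_of h1).trans (vol_upx h hx.1.1)

/-- bounds for large degrees are enough -/
theorem le_volCO {Q : S.VV M} {C : LC S} {A : κ → Part S} {v : ℝ} (D₀ : ℕ)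
    (h : ∀ D, D₀ ≤ D → v ≤ volC C A Q D) : v ≤ volCO C A Q :=
  le_ciInf fun D => (h (max D D₀) (le_max_right _ _)).trans (volC_deg Q C A (le_max_left _ _))

/-- the volume of the part -/
theorem optK_crd {x : ∀ k, FD (S.F k) (Mon M D)} (hx : (gaq Q D).OptfK C A x) (σ : Fin m → Fin M)
    (hσ : Function.Injective σ) : (gaq (vcrd σ Q) D).OptfK C A (prt σ hσ x) :=
  optK_prt (σ := σ) (hσ := hσ) (P := vcrd σ Q) (Q := Q) (fun _ _ _ => rfl) hx

theorem volC_prt {x : ∀ k, FD (S.F k) (Mon M D)} (hx : (gaq Q D).OptfK C A x) (σ : Fin m → Fin M)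
    (hσ : Function.Injective σ) : volC C A (vcrd σ Q) D = vol (vcrd σ Q) D (prt σ hσ x) :=
  volC_eq (optK_crd hx σ hσ)

/-- **ADDING ONE COORDINATE**: `P` is a part of `Q` with a frame over a label of the class; the volume of `P` is at most
the volume of `P` without the coordinate `j` plus `1 - La j` -/
theorem volC_step [Finite κ] (σ : Fin (m + 1) → Fin M) (hσ : Function.Injective σ) (j : Fin (m + 1))
    {l : Lab S} {La : Fin (m + 1) → ℝ} (f : Frm (vcrd σ Q) l La) (hl : l.DMf A) (hC : C.ev l) (h0 : ∀ i, 0 ≤ La i)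
    (h1 : ∀ i, La i ≤ 1) {d : ℕ} (hd : ∀ k ω j, (f.P k ω j).totalDegree ≤ d) (hD : (d + 1) ^ (m + 1) ≤ D) :
    volC C A (vcrd σ Q) D ≤ 1 - La j + volC C A (vcrd (σ ∘ j.succAbove) Q) D := by
  obtain ⟨x, hx⟩ := (gaq Q D).exists_optfK C A
  have hτ : Function.Injective (σ ∘ j.succAbove) := hσ.comp Fin.succAbove_right_injective
  rw [volC_prt hx σ hσ, volC_prt hx _ hτ]
  have h2 := prt_one (j := j) (σ := σ) (hσ := hσ) (hτ := hτ) (P := vcrd σ Q) (P' := vcrd (σ ∘ j.succAbove) Q)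
    (fun _ _ _ => rfl) (fun _ _ _ => rfl) (fun _ => rfl) hx
  have hx' : (gaq (vcrd σ Q) D).OptfK C A (prt σ hσ x) := optK_crd hx σ hσ
  have hy : (gaq (vcrd σ Q) D).AdfK C A (frf f D) := frf_adfK f hl hC h0 h1 hd hD
  have h3 := (Pool.Agent.Helper7.RD.optK_dom hx' hy).zx_le hx'.1.1 hy.1 j
  have h4 := frf_zx f hl h0 h1 hd hD j
  linarith

/-- adding one coordinate, all degrees -/
theorem volCO_step [Finite κ] (σ : Fin (m + 1) → Fin M) (hσ : Function.Injective σ) (j : Fin (m + 1))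
    {l : Lab S} {La : Fin (m + 1) → ℝ} (f : Frm (vcrd σ Q) l La) (hl : l.DMf A) (hC : C.ev l) (h0 : ∀ i, 0 ≤ La i)
    (h1 : ∀ i, La i ≤ 1) {d : ℕ} (hd : ∀ k ω j, (f.P k ω j).totalDegree ≤ d) :
    volCO C A (vcrd σ Q) ≤ 1 - La j + volCO C A (vcrd (σ ∘ j.succAbove) Q) := by
  have h2 : volCO C A (vcrd σ Q) - (1 - La j) ≤ volCO C A (vcrd (σ ∘ j.succAbove) Q) :=
    le_volCO ((d + 1) ^ (m + 1)) fun D hD => by
      have h3 := volC_step (C := C) σ hσ j f hl hC h0 h1 hd hD
      have h4 := volCO_le (C := C) (A := A) (Q := vcrd σ Q) D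
      linarith
  linarith

end vol

end

end Pool.Agent.Helper18.SRT
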