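import Pool.Agent.Helper18.SRT.Srt
import Pool.Agent.Helper18.PRM.Mxp

/-! SORTED PREFIXES (3): the statements in the vocabulary of `Helper29/MX/St`. -/

set_option autoImplicit false

namespace Pool.Agent.Helper18.SRT

open Finset Filter Topology Matrix Pool.Agent.Helper69.RK Pool.Agent.Helper31.EC Pool.Agent.Helper31.EC.Sp
open Pool.Agent.Helper40.EL Pool.Agent.Helper89.LX Pool.Agent.Helper3.LF Pool.Agent.Helper84.MT
open Pool.Agent.Helper36.AM Pool.Agent.Helper84.KR Pool.Agent.Helper89.RAK Pool.Agent.Helper29.MX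
open Pool.Agent.Helper7.RD (volC volCO volC_eq volC_le_of volCO_le volCO_le_M volCO_nonneg)
open Pool.Agent.Helper87.NSL (cndR)
open Pool.Agent.Helper18.PRM

noncomputable section

variable {S : Sp} {M m N D : ℕ} {E : ℕ → ℕ} {ι κ : Type}

/-! ### parts of the point -/

/-- the codimension of the hull of a part is at most the codimension of the hull, one degree -/
theorem codC_part {Q : S.VV N} {C : LC S} {A : κ → Part S} (σ : Fin m → Fin N) (hσ : Function.Injective σ) :
    (m : ℝ) - volC C A (vcrd σ Q) D ≤ N - volC C A Q D := by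
  obtain ⟨x, hx⟩ := (gaq Q D).exists_optfK C A
  rw [volC_prt hx σ hσ, volC_eq hx]
  exact prt_vol (σ := σ) (hσ := hσ) (P := vcrd σ Q) (Q := Q) (fun _ _ _ => rfl) hx.1.1

/-- the codimension of the hull of a part is at most the codimension of the hull -/
theorem codO_part {Q : S.VV N} {C : LC S} {A : κ → Part S} (σ : Fin m → Fin N) (hσ : Function.Injective σ) :
    (m : ℝ) - volCO C A (vcrd σ Q) ≤ N - volCO C A Q := by
  have h1 : (m : ℝ) - N + volCO C A Q ≤ volCO C A (vcrd σ Q) := le_volCO 0 fun D _ => by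
    have h2 := codC_part (C := C) (A := A) (Q := Q) (D := D) σ hσ
    have h3 := volCO_le (C := C) (A := A) (Q := Q) D
    linarith
  linarith

theorem volP_part (s : MSys S N E ι) (R : Rsl S) (c : ℝ) {j : ℕ} (hj : j ≤ N) :
    (j : ℝ) - volP s R c hj ≤ N - volKO s R c := by
  rw [volKO_eq]
  exact codO_part _ (Fin.castLE_injective hj)

theorem volP_le (s : MSys S N E ι) (R : Rsl S) (c : ℝ) {j : ℕ} (hj : j ≤ N) : volP s R c hj ≤ j := volCO_le_M

/-- the prefix of length `N` -/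
theorem volP_all (s : MSys S N E ι) (R : Rsl S) (c : ℝ) : volP s R c (le_refl N) = volKO s R c := by
  rw [volKO_eq]
  rfl

theorem volP_zero (s : MSys S N E ι) (R : Rsl S) (c : ℝ) (h : 0 ≤ N) : volP s R c h = 0 :=
  le_antisymm ((volP_le s R c h).trans (by norm_num)) volCO_nonneg

/-- stable systems: the prefixes are stable -/
theorem volP_stb {s : MSys S N E ι} {R : Rsl S} {c : ℝ} (h : (N : ℝ) ≤ volKO s R c) {j : ℕ} (hj : j ≤ N) :
    volP s R c hj = j := by
  have h1 := volP_part s R c hj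
  have h2 := volP_le s R c hj
  linarith

/-- prefixes of a permuted system -/
theorem volP_scrd (σ : Fin N → Fin N) (s : MSys S N E ι) (R : Rsl S) (c : ℝ) {j : ℕ} (hj : j ≤ N) :
    volP (scrd σ s) R c hj = volCO (KZ R) (cndR s R c) (vcrd (fun i : Fin j => σ (Fin.castLE hj i)) s.Q) := by
  unfold volP
  rw [cndR_crd]
  rfl

/-- **SORTED PREFIX NUMBERS** from one frame and the total -/
theorem volP_srt [Finite ι] {s : MSys S N E ι} {R : Rsl S} {c : ℝ} {l : Lab S} (hl : KLb s R c l) {La : Fin N → ℝ}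
    (f : Frm s.Q l La) (h0 : ∀ i, 0 ≤ La i) (h1 : ∀ i, La i ≤ 1) {d : ℕ} (hd : ∀ k ω j, (f.P k ω j).totalDegree ≤ d)
    (hv : (N : ℝ) - ∑ i, La i ≤ volKO s R c) (σ : Equiv.Perm (Fin N)) (hm : Monotone fun j => La (σ j)) {j : ℕ}
    (hj : j ≤ N) : volP (scrd σ s) R c hj = j - ∑ i : Fin j, La (σ (Fin.castLE hj i)) := by
  rw [volP_scrd]
  rw [volKO_eq] at hv
  exact srt_perm f hl.1 hl.2 h0 h1 hd hv σ hm hj

/-- **SORTED PREFIX NUMBERS**, weights -/
theorem volP_srtW [Finite ι] {s : MSys S N E ι} {R : Rsl S} {c : ℝ} (hc : 0 < c) {l : Lab S} (hl : KLb s R c l)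
    {w : Fin N → ℝ} (hw : ∀ j, 1 ≤ w j) (hwc : ∀ j, w j * c ≤ 1) (f : Frm s.Q l (fun j => w j * c))
    (hv : (N : ℝ) - (∑ j, w j) * c ≤ volKO s R c) (σ : Equiv.Perm (Fin N)) (hm : Monotone fun j => w (σ j)) {j : ℕ}
    (hj : j ≤ N) : volP (scrd σ s) R c hj = j - (∑ i : Fin j, w (σ (Fin.castLE hj i))) * c := by
  obtain ⟨W, hW⟩ : ∃ W : ℕ, ∀ j, w j ≤ W := by
    obtain ⟨W, hW⟩ := exists_nat_ge (∑ j, w j)
    exact ⟨W, fun j => (Finset.single_le_sum (f := w) (fun i _ => zero_le_one.trans (hw i)) (Finset.mem_univ j)).trans hW⟩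
  have h2 := volP_srt hl f (fun i => mul_nonneg (zero_le_one.trans (hw i)) hc.le) hwc
    (Pool.Agent.Helper7.GZ.frm_deg f hc hw hW) (by rw [← Finset.sum_mul]; exact hv) σ
    (fun a b hab => mul_le_mul_of_nonneg_right (hm hab) hc.le) hj
  rw [h2, Finset.sum_mul]

end

end Pool.Agent.Helper18.SRT
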