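import Pool.Agent.Helper77.ONE.One
import Pool.Agent.Helper18.MCU.Ind

/-! THE SMALLEST WEIGHT IS ONE: if the type-labels of the window `0` have trivial hulls and a type-label of a window
`c > 0` has a frame with the exponents `w j * c`, `w j ≥ 1`, then some weight is one. -/

set_option autoImplicit false

namespace Pool.Agent.Helper18.SRT

open Finset Filter Topology Matrix Pool.Agent.Helper69.RK Pool.Agent.Helper31.EC Pool.Agent.Helper31.EC.Sp
open Pool.Agent.Helper40.EL Pool.Agent.Helper89.LX Pool.Agent.Helper3.LF Pool.Agent.Helper84.MT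
open Pool.Agent.Helper49.MD Pool.Agent.Helper36.AM Pool.Agent.Helper29.MX
open Pool.Agent.Helper7.RD (FD0 volCO volCO_le_M)
open Pool.Agent.Helper87.NSL (cndR)

noncomputable section

variable {S : Sp} {M : ℕ} {E : ℕ → ℕ} {ι κ : Type}

/-- the coordinates in the cell -/
def cpt (Q : S.VV M) (d : ℝ) : S.VV M where
  v := fun k ω j => Int.fract (Q.v k ω j / S.dl d k)
  bd := ⟨fun _ => 1, S.Sub_const zero_le_one, Eventually.of_forall fun k ω _ j => by
    rw [abs_of_nonneg (Int.fract_nonneg _)]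
    exact (Int.fract_lt_one _).le⟩

/-- THE FRAME OF THE CELLS of level `d` -/
def cfr (Q : S.VV M) {d : ℝ} (h0 : 0 ≤ d) : Frm Q (Lab.ofZ fun k => Setoid.ker (Q.cellv d k)) (fun _ => d) where
  X := (cpt Q d : S.VV M)
  P := fun k (ω : (S.F k).Ω) j => MvPolynomial.C (S.dl d k * ⌊Q.v k ω j / S.dl d k⌋)
  tri := fun k ω j i hi => by
    rw [MvPolynomial.vars_C] at hi
    exact absurd hi (Finset.notMem_empty i)
  red := fun k ω j a ha hne => by
    exfalso
    rw [MvPolynomial.mem_support_iff, MvPolynomial.coeff_C, if_neg (Ne.symm hne)] at ha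
    exact ha rfl
  fn := Eventually.of_forall fun k ω ω' _ _ _ hV => by
    have h1 : Q.cellv d k ω = Q.cellv d k ω' := hV
    funext j
    have h2 : ⌊Q.v k ω j / S.dl d k⌋ = ⌊Q.v k ω' j / S.dl d k⌋ := congrFun h1 j
    show MvPolynomial.C (S.dl d k * ⌊Q.v k ω j / S.dl d k⌋) = MvPolynomial.C (S.dl d k * ⌊Q.v k ω' j / S.dl d k⌋)
    rw [h2]
  bd := by
    obtain ⟨K, hK, hb⟩ := Q.bd
    refine ⟨fun k => K k + 1, hK.add (S.Sub_const zero_le_one), ?_⟩
    filter_upwards [hb, hK.1] with k a b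
    intro (ω : (S.F k).Ω) (hω : (S.F k).μ ω ≠ 0) j m
    have hδ := S.dl_pos d k
    have hd1 : S.dl d k ≤ 1 := (S.dl_anti h0 k).trans (le_of_eq (S.dl_zero k))
    show |(MvPolynomial.C (S.dl d k * ⌊Q.v k ω j / S.dl d k⌋) : MvPolynomial (Fin M) ℝ).coeff m| ≤ K k + 1
    rw [MvPolynomial.coeff_C]
    split_ifs
    · have h1 : S.dl d k * (⌊Q.v k ω j / S.dl d k⌋ : ℝ) = Q.v k ω j - S.dl d k * Int.fract (Q.v k ω j / S.dl d k) := by
        rw [Int.fract]
        field_simp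
        ring
      rw [h1]
      have h2 := a ω hω j
      have h3 := abs_sub (Q.v k ω j) (S.dl d k * Int.fract (Q.v k ω j / S.dl d k))
      have h4 : |S.dl d k * Int.fract (Q.v k ω j / S.dl d k)| ≤ 1 := by
        rw [abs_of_nonneg (mul_nonneg hδ.le (Int.fract_nonneg _))]
        have h5 := (Int.fract_lt_one (Q.v k ω j / S.dl d k)).le
        have h6 := Int.fract_nonneg (Q.v k ω j / S.dl d k)
        nlinarith
      linarith
    · rw [abs_zero]
      linarith
  pt := ⟨fun _ => 0, S.Sub_const le_rfl, Eventually.of_forall fun k (ω : (S.F k).Ω) _ j => by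
    have hδ := S.dl_pos d k
    show |Q.v k ω j - (MvPolynomial.eval _ (MvPolynomial.C (S.dl d k * (⌊Q.v k ω j / S.dl d k⌋ : ℝ))) +
      S.dl d k * Int.fract (Q.v k ω j / S.dl d k))| ≤ 0 * S.dl 1 k
    rw [MvPolynomial.eval_C, Int.fract]
    have h1 : Q.v k ω j - (S.dl d k * (⌊Q.v k ω j / S.dl d k⌋ : ℝ) +
        S.dl d k * (Q.v k ω j / S.dl d k - (⌊Q.v k ω j / S.dl d k⌋ : ℝ))) = 0 := by
      field_simp
      ring
    rw [h1, abs_zero, zero_mul]⟩

theorem cfr_deg (Q : S.VV M) {d : ℝ} (h0 : 0 ≤ d) (k : ℕ) (ω : (S.F k).Ω) (j : Fin M) :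
    ((cfr Q h0).P k ω j).totalDegree ≤ 0 := by
  show (MvPolynomial.C (S.dl d k * (⌊Q.v k ω j / S.dl d k⌋ : ℝ)) : MvPolynomial (Fin M) ℝ).totalDegree ≤ 0
  rw [MvPolynomial.totalDegree_C]

/-- the volume of a class with a label with a frame -/
theorem volCO_frm [Finite κ] {A : κ → Part S} {Q : S.VV M} {l : Lab S} {La : Fin M → ℝ} (f : Frm Q l La)
    (hl : l.DMf A) {C : Part S} (hC : (LC.kz C).ev l) (h0 : ∀ j, 0 ≤ La j) {e : ℝ} (he : 0 < e) (he1 : e ≤ 1)
    (hLe : ∀ j, La j + e ≤ 1) {d : ℕ} (hd : ∀ k ω j, (f.P k ω j).totalDegree ≤ d) :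
    volCO (LC.kz C) A Q ≤ M - ∑ j, La j := by
  have h2 := (⟨f, 0, e, le_rfl, he, by linarith, h0, hLe, d, hd⟩ : FD0 Q l La).volCO_le (A := A)
    (B := fun i => l.up e he (A i)) hl (fun i => ⟨i, PLe.refl _⟩) hC
    (FD0.isX_XV (⟨f, 0, e, le_rfl, he, by linarith, h0, hLe, d, hd⟩ : FD0 Q l La))
  refine h2.trans ?_
  have h3 : volCO (LC.kz (l.up e he C)) (fun i => l.up e he (A i))
    (FD0.XV (⟨f, 0, e, le_rfl, he, by linarith, h0, hLe, d, hd⟩ : FD0 Q l La)) ≤ M :=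
    volCO_le_M (S := l.ovr e he)
  have h4 := mul_nonneg he.le (sub_nonneg.mpr h3)
  have h5 : (0 : ℝ) ≤ e * (M - volCO (LC.kz (l.up e he C)) (fun i => l.up e he (A i))
    (FD0.XV (⟨f, 0, e, le_rfl, he, by linarith, h0, hLe, d, hd⟩ : FD0 Q l La))) := h4
  exact sub_le_self _ h5

/-- **THE SMALLEST WEIGHT IS ONE** -/
theorem exists_one [Finite ι] (i₀ : Fin M) {s : MSys S M E ι} (hs : (M : ℝ) ≤ volKO s (rbot S) 0) {w : Fin M → ℝ}
    (hw : ∀ j, 1 ≤ w j) {c : ℝ} (hc : 0 < c) (hwc : ∀ j, w j * c < 1) {l : Lab S} (f : Frm s.Q l fun j => w j * c)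
    (hl : TLb s c l) : ∃ i, w i = 1 := by
  by_contra hcon
  push Not at hcon
  have : Nonempty (Fin M) := ⟨i₀⟩
  obtain ⟨i, hi⟩ := Finite.exists_min w
  have h1 : 1 < w i := lt_of_le_of_ne (hw i) (Ne.symm (hcon i))
  obtain ⟨d, hd⟩ : ∃ d : ℝ, d = (w i - 1) * c := ⟨_, rfl⟩
  have hd0 : 0 < d := by
    rw [hd]
    exact mul_pos (sub_pos.mpr h1) hc
  have hcd : ∀ j, c + d ≤ w j * c := fun j => by
    have := mul_le_mul_of_nonneg_right (hi j) hc.le
    rw [hd]
    linarith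
  have hd1 : d < 1 := by
    have := hcd i
    have := hwc i
    linarith
  have hc1 : c < 1 := by
    have := hcd i
    have := hwc i
    linarith
  have hL : KLb s (rbot S) 0 (Lab.ofZ fun k => Setoid.ker (s.Q.cellv d k)) := (tlb_iff s 0 _).mpr fun j => by
    have h2 := Pool.Agent.Helper77.ONE.dig_win f (s.lf j) hc.le hc1 (hl j) (by linarith) hd1.le hcd
      (fun j => (hwc j).le) (fun j => mul_pos (lt_of_lt_of_le one_pos (hw j)) hc)
    refine (show Nul S _ from h2).congr fun k => ?_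
    beta_reduce
    rw [Lab.ofZ_leak (fun k => Setoid.ker (s.Q.cellv d k)) ((s.lf j).win 0) k]
  have h3 := volCO_frm (cfr s.Q hd0.le) hL.1 hL.2 (fun _ => hd0.le) (e := 1 - d) (by linarith) (by linarith)
    (fun _ => by linarith) (cfr_deg s.Q hd0.le)
  rw [volKO_eq] at hs
  have h4 : (M : ℝ) ≤ M - ∑ _j : Fin M, d := hs.trans h3
  rw [Finset.sum_const, Finset.card_univ, Fintype.card_fin, nsmul_eq_mul] at h4
  have hM : (0 : ℝ) < M := by
    have : 0 < M := Fin.pos i₀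
    exact_mod_cast this
  have := mul_pos hM hd0
  linarith

end

end Pool.Agent.Helper18.SRT
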