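import Pool.Agent.Helper7.RD.Srr
import Pool.Agent.Helper48.ROK.Cars
import Pool.Agent.Helper18.MCU.Dvx
import Pool.Agent.Helper18.SRT.One
import Pool.Agent.Helper18.SRT.Mx
import Pool.Agent.Helper18.PRM.Min

/-! ROW `SRCX` of `Helper7/RD/Srr`: the members of the joint class in the sorted coordinates. Least carriers do not see the
order of the coordinates. -/

set_option autoImplicit false

namespace Pool.Agent.Helper18.SRT

open Finset Filter Topology Matrix Pool.Agent.Helper69.RK Pool.Agent.Helper31.EC Pool.Agent.Helper31.EC.Sp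
open Pool.Agent.Helper40.EL Pool.Agent.Helper89.LX Pool.Agent.Helper3.LF Pool.Agent.Helper84.MT
open Pool.Agent.Helper49.MD Pool.Agent.Helper36.AM Pool.Agent.Helper29.MX Pool.Agent.Helper18.TRF
open Pool.Agent.Helper18.PRM Pool.Agent.Helper18.MCU
open Pool.Agent.Helper87.NSL (KnS cndR)
open Pool.Agent.Helper26.OUT (WDs)
open Pool.Agent.Helper52.MW (AllE_self)
open Pool.Agent.Helper7.RD (Clw SRCX exists_win)
open Pool.Agent.Helper48.ROK (frm_small mc_zero opt_of_frm pt_im wsm_all)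
open Pool.Agent.Helper94.SEL (Ctx)

noncomputable section

variable {S T : Sp} {N M : ℕ} {E : ℕ → ℕ} {ι : Type} {s : MSys S N E ι} {R : Rsl S} {w : Fin N → ℝ} {c : ℝ} {X : Rsl S}

/-- LEAST CARRIERS are known to the labels of the optimal forms -/
theorem mc_opt [Finite ι] (hP : Pt s R) (hc : 0 < c) (hw : ∀ i, 1 ≤ w i) (hwc : ∀ i, w i * c < 1)
    (hX : Mc s R w c X) : ∃ D : ℕ, ∀ y : ∀ k, FD (S.F k) (Mon N D),
      (gaq s.Q D).OptfK (LC.kz fun k => fc (R k)) (cndR s R c) y →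
        Nul S fun k => h ((y k).l.p.map (fc (X k))) (y k).l.v := by
  obtain ⟨f⟩ := hX.fr
  obtain ⟨W, hW⟩ := exists_W w
  have h0 : ∀ j, 0 ≤ w j * c := fun j => mul_nonneg (zero_le_one.trans (hw j)) hc.le
  obtain ⟨X0, hX0⟩ := Pool.Agent.Helper95.VIS.exists_minC (gaq s.Q ((W + 1) ^ N)) (cndR s R c) R
  obtain ⟨G, g1, g2, -⟩ := hX0.car
  obtain ⟨Z, g, -, hZ⟩ := frm_small (A := cndR s R c) (Q := s.Q) hP hX0.lit g1 g2 f hX.kl.1 hX.kl.2 h0
    (fun j => (hwc j).le) (frm_deg0 f hc.le hw hW) le_rfl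
  have hZC := hZ.minC hX0
  have hkl : KLb s R c (Lab.ofZ Z) := ⟨hZ.dmf hX0.dmf, Pool.Agent.Helper49.KL.kz_ofZ hZ.lit⟩
  have h1 : Nul S fun k => h (fc (X k)) (fc (Z k)) := hX.min (Lab.ofZ Z) hkl ⟨g⟩
  refine ⟨(W + 1) ^ N, fun y hy => ?_⟩
  have h2 := hZC.min (gaq s.Q ((W + 1) ^ N)) hy
  refine (h1.add h2).of_le (Eventually.of_forall fun k => h_nonneg _ _) (Eventually.of_forall fun k => ?_)
  have h3 := h_triangle' ((y k).l.p.map (fc (X k))) ((y k).l.p.map (fc (Z k))) ((y k).l.v)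
  rw [(y k).l.p.h_map] at h3
  exact h3

/-- the frame in the sorted coordinates -/
def frS (σ : Equiv.Perm (Fin N)) (hm : Monotone fun j => w (σ j)) (hw : ∀ i, 1 ≤ w i) (hc : 0 ≤ c) {l : Lab S}
    (f : Frm s.Q l fun j => w j * c) : Frm (scrd σ s).Q l fun j => w (σ j) * c :=
  frr σ σ.injective (fun i => mul_nonneg (zero_le_one.trans (hw i)) hc)
    (ord_mono σ fun _ _ h => mul_le_mul_of_nonneg_right (hm h) hc) f

/-- the cells of the sorted coordinates -/
theorem clF_srt (σ : Equiv.Perm (Fin N)) (hm : Monotone fun j => w (σ j)) (hw : ∀ i, 1 ≤ w i) (hc : 0 ≤ c)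
    (f : Frm s.Q (Lab.ofZ X) fun j => w j * c) (r : ℝ) : clF (frS σ hm hw hc f) r = clF f r := by
  funext k
  have h1 := ker_prm (S := (Lab.ofZ X).sp) σ f.X r k
  exact congrArg (fun z : Setoid ((Lab.ofZ X).sp.F k).Ω => (fc z : FL ((Lab.ofZ X).sp.F k))) h1

theorem opt_prm (σ : Equiv.Perm (Fin N)) {D : ℕ} {x : ∀ k, FD (S.F k) (Mon N D)}
    (h : (gaq (scrd σ s).Q D).OptfK (LC.kz fun k => fc (R k)) (cndR (scrd σ s) R c) x) :
    (gaq s.Q D).OptfK (LC.kz fun k => fc (R k)) (cndR s R c) (fun k => fprm σ.symm (x k)) := by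
  have h1 : (gaq (vcrd σ s.Q) D).OptfK (LC.kz fun k => fc (R k)) (cndR s R c) x := by
    rw [← cndR_crd σ]
    exact h
  have h2 := optfK_prm (M := N) (D := D) (Q := vcrd σ s.Q) (A := cndR s R c) (C := LC.kz fun k => fc (R k)) (x := x)
    σ.symm h1
  rw [vcrd_symm] at h2
  exact h2

/-- **LEAST CARRIERS** of the sorted system -/
theorem mc_prm [Finite ι] (hP : Pt s R) (hc : 0 ≤ c) (hw : ∀ i, 1 ≤ w i) (hwc : ∀ i, w i * c < 1)
    (hT : volKO s R c = N - (∑ i, w i) * c) (σ : Equiv.Perm (Fin N)) (hm : Monotone fun j => w (σ j))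
    (hX : Mc s R w c X) : Mc (scrd σ s) R (fun j => w (σ j)) c X where
  lit := hX.lit
  kl := (KLb_crd σ s R c _).mpr hX.kl
  fr := hX.fr.elim fun f => ⟨frS σ hm hw hc f⟩
  min := by
    intro l hl hf
    rcases hc.eq_or_lt with h0 | hc0
    · -- the window zero
      subst h0
      have h1 := (mc_zero s R w).kl
      have h2 : Nul S fun k => h (fc (X k)) (fc (⊤ : Setoid (S.F k).Ω)) :=
        hX.min (Lab.ofZ fun _ => ⊤) h1 (mc_zero s R w).fr
      refine h2.of_le (Eventually.of_forall fun k => h_nonneg _ _) (Eventually.of_forall fun k => ?_)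
      have h3 : h (fc (X k) : FL (S.F k)) (fc (⊤ : Setoid (S.F k).Ω)) = Helper31.EC.H (fc (X k) : FL (S.F k)) := h_bot _
      rw [h3]
      refine (h_le_H _ _).trans (le_of_eq ?_)
      exact (l k).p.H_map (fc (X k))
    · obtain ⟨f'⟩ := hf
      obtain ⟨W, hW⟩ := exists_W w
      have hl' : KLb (scrd σ s) R c l := hl
      have hT' : volKO (scrd σ s) R c = N - (∑ i, w (σ i)) * c := by
        rw [volKO_prm, hT, Equiv.sum_comp σ w]
      obtain ⟨D, hD⟩ := mc_opt hP hc0 hw hwc hX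
      have h1 := opt_of_frm (s := scrd σ s) (w := fun j => w (σ j)) hc0 (fun i => hw _) (fun i => hwc _) hT' f'
        (frm_deg0 f' hc0.le (fun i => hw _) (fun i => hW _)) hl' D
      have h3 := opt_prm σ h1
      have h4 := hD _ h3
      exact h4

section clauses
variable [Finite ι] (i₀ : Fin N) (hP : Pt s R) (hw : ∀ i, 1 ≤ w i) (σ : Equiv.Perm (Fin N))
  (hm : Monotone fun j => w (σ j)) (hT : Tot w s R)
include hT

omit [Finite ι] in
theorem tot_prm : Tot (fun j => w (σ j)) (scrd σ s) R := by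
  intro c hc hwc
  have h1 := hT c hc fun i => by
    have h9 : w (σ (σ.symm i)) * c < 1 := hwc (σ.symm i)
    rwa [Equiv.apply_symm_apply] at h9
  rw [volKO_prm, h1]
  have e : ∑ i, (fun j => w (σ j)) i = ∑ i, w i := Equiv.sum_comp σ w
  rw [e]

include hP hw hm

theorem car_prm (hC : Car w s R) : Car (fun j => w (σ j)) (scrd σ s) R := by
  intro c hc hwc
  have hwc' : ∀ i, w i * c < 1 := fun i => by
    have h9 : w (σ (σ.symm i)) * c < 1 := hwc (σ.symm i)
    rwa [Equiv.apply_symm_apply] at h9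
  obtain ⟨X, hX⟩ := hC c hc hwc'
  exact ⟨X, mc_prm hP hc hw hwc' (hT c hc hwc') σ hm hX⟩

include i₀

theorem dfx_prm (hC : Car w s R) {ρ : ℝ} (hd : Dfx w ρ s R) : Dfx (fun j => w (σ j)) ρ (scrd σ s) R := by
  refine dfx_of i₀ (Pt_crd σ hP) (fun i => hw _) (tot_prm σ hT) fun c hc hwc => ?_
  have hwc' : ∀ i, w i * c < 1 := fun i => by
    have h9 : w (σ (σ.symm i)) * c < 1 := hwc (σ.symm i)
    rwa [Equiv.apply_symm_apply] at h9
  obtain ⟨X, hX⟩ := hC c hc hwc'
  obtain ⟨f⟩ := hX.fr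
  refine ⟨X, mc_prm hP hc hw hwc' (hT c hc hwc') σ hm hX, frS σ hm hw hc f, fun e he hwe => ?_⟩
  rw [clF_srt]
  exact hd c hc hwc' X hX f e he fun i => by
    have h9 : w (σ (σ.symm i)) * c + e ≤ 1 := hwe (σ.symm i)
    rwa [Equiv.apply_symm_apply] at h9

theorem vsx_prm (hC : Car w s R) (hv : Vsx w s R) : Vsx (fun j => w (σ j)) (scrd σ s) R := by
  refine vsx_of i₀ (Pt_crd σ hP) (fun i => hw _) (tot_prm σ hT) fun c c' hc hcc hwc => ?_
  have hwc' : ∀ i, w i * c' < 1 := fun i => by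
    have h9 : w (σ (σ.symm i)) * c' < 1 := hwc (σ.symm i)
    rwa [Equiv.apply_symm_apply] at h9
  have hwc0 : ∀ i, w i * c < 1 := fun i =>
    lt_of_le_of_lt (mul_le_mul_of_nonneg_left hcc (zero_le_one.trans (hw i))) (hwc' i)
  obtain ⟨X, hX⟩ := hC c hc hwc0
  obtain ⟨X', hX'⟩ := hC c' (hc.trans hcc) hwc'
  obtain ⟨f⟩ := hX.fr
  refine ⟨X, X', mc_prm hP hc hw hwc0 (hT c hc hwc0) σ hm hX,
    mc_prm hP (hc.trans hcc) hw hwc' (hT c' (hc.trans hcc) hwc') σ hm hX', frS σ hm hw hc f, fun e he hwe hwd => ?_⟩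
  rw [clF_srt]
  exact hv c c' hc hcc hwc' X X' hX hX' f e he (fun i => by
    have h9 : w (σ (σ.symm i)) * c + e ≤ 1 := hwe (σ.symm i)
    rwa [Equiv.apply_symm_apply] at h9) (fun i => by
    have h9 : w (σ (σ.symm i)) * (c' - c) < e := hwd (σ.symm i)
    rwa [Equiv.apply_symm_apply] at h9)

end clauses

theorem pt_bot (s : MSys S N E ι) : Pt s (rbot S) := by
  refine Eventually.of_forall fun k ω ω' _ _ _ h1 => ?_
  have h2 : ω = ω' := h1
  rw [h2]

/-- **ROW SRCX** -/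
theorem srcx (M : ℕ) : SRCX M := by
  intro A C B D v hCtx hD m g r w ρ hw hρ S s hJ
  have hm := srt_mono w
  have hnum : Num w s (rbot S) := AllE_self hJ.num
  have hcar : Car w s (rbot S) := AllE_self hJ.car
  have hst : Stb 0 s (rbot S) := by
    intro T p A' hA'
    have h1 := Pool.Agent.Helper48.ROK.Num.tot (hJ.num T p A' hA') 0 le_rfl (fun i => by rw [mul_zero]; exact one_pos)
    show ((M + 1 : ℕ) : ℝ) - 0 ≤ volKO (s.im p A' hA') (rbot S) 0
    rw [mul_zero] at h1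
    exact h1.symm.le
  obtain ⟨c, e, hc, -, -, hwc, -, -⟩ := exists_win w hw
  obtain ⟨X, hX⟩ := hcar c hc.le hwc
  obtain ⟨f⟩ := hX.fr
  have htl : TLb s c (Lab.ofZ X) := (tlb_iff s c _).mp hX.kl
  have h0 : ((M + 1 : ℕ) : ℝ) ≤ volKO s (rbot S) 0 := by
    have h1 := Pool.Agent.Helper48.ROK.Num.tot hnum 0 le_rfl (fun i => by rw [mul_zero]; exact one_pos)
    rw [mul_zero, sub_zero] at h1
    exact h1.symm.le
  have hone := exists_one (0 : Fin (M + 1)) h0 hw hc hwc f htl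
  have hDm : D (fun j => w (srt w j)) m S g r (scrd (srt w) s) := by
    refine hD.prm (fun j => w (srt w j)) m S g r s (srt w) hJ.cl.1 hst hm (fun j => hw _)
      ⟨c, Lab.ofZ X, frS (srt w) hm hw hc.le f, hc, fun j => hwc _, htl, fun j hj => ?_⟩ (fun j hj h1 => ?_)
    · have hj0 : j = 0 := Fin.ext hj
      subst hj0
      have h1 := hnum c hc.le hwc (((0 : Fin (M + 1)) : ℕ) + 1) (Nat.succ_le_of_lt (0 : Fin (M + 1)).2)
      rw [h1]
      show w (srt w ((srt w).symm 0)) * c = _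
      rw [Equiv.apply_symm_apply]
      have h2 : wsm w (((0 : Fin (M + 1)) : ℕ) + 1) = w 0 := by
        unfold wsm
        rw [Finset.sum_eq_single (0 : Fin (M + 1))]
        · exact if_pos (Nat.lt_succ_self _)
        · intro b _ hb
          apply if_neg
          intro h3
          apply hb
          apply Fin.ext
          have h4 : (b : ℕ) < 0 + 1 := h3
          show (b : ℕ) = 0
          omega
        · intro h3
          exact absurd (Finset.mem_univ _) h3
      rw [h2]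
      show w 0 * c = 1 - (((1 : ℕ) : ℝ) - w 0 * c)
      rw [Nat.cast_one]
      ring
    · have hj0 : j = 0 := Fin.ext hj
      subst hj0
      have h2 : w 0 = 1 := by
        have h3 : w (srt w ((srt w).symm 0)) = 1 := h1
        rwa [Equiv.apply_symm_apply] at h3
      exact srt_zero w fun i => by rw [h2]; exact hw i
  refine ⟨srt w, hm, srt_one w hw hone, hDm, ?_, ?_⟩
  · exact wd_crd (srt w) hJ.pol
  · have hP : ∀ (T : Sp) (p : Pj T S) (A' : ∀ k, (T.F k).Ω → Prop) (hA' : 0 < ul (T.pr A')),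
        Pt (S := Sp.im p A') (s.im p A' hA') (rbot S) := fun T p A' hA' => pt_im (pt_bot s) p A' hA'
    exact
      { inv := Inv_prm (srt w) hJ.cl.2.2
        tot := fun T p A' hA' => tot_prm (S := Sp.im p A') (s := s.im p A' hA') (srt w) (Pool.Agent.Helper48.ROK.Num.tot (hJ.num T p A' hA'))
        car := fun T p A' hA' => car_prm (S := Sp.im p A') (s := s.im p A' hA') (hP T p A' hA') hw (srt w) hm
          (Pool.Agent.Helper48.ROK.Num.tot (hJ.num T p A' hA')) (hJ.car T p A' hA')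
        dfx := fun T p A' hA' => dfx_prm (S := Sp.im p A') (s := s.im p A' hA') 0 (hP T p A' hA') hw (srt w) hm
          (Pool.Agent.Helper48.ROK.Num.tot (hJ.num T p A' hA')) (hJ.car T p A' hA') (hJ.dfx T p A' hA')
        vsx := fun T p A' hA' => vsx_prm (S := Sp.im p A') (s := s.im p A' hA') 0 (hP T p A' hA') hw (srt w) hm
          (Pool.Agent.Helper48.ROK.Num.tot (hJ.num T p A' hA')) (hJ.car T p A' hA') (hJ.vsx T p A' hA') }

end

end Pool.Agent.Helper18.SRT
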