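import Pool.Agent.Helper18.SRT.Row

/-! SORTED PREFIXES (2): if a label of the class carries a frame with exponents `La` and the codimension of the hull of the
class is `∑ La`, then the codimension of the hull of every SORTED prefix (the coordinates with the smallest exponents) is
the sum of its exponents. -/

set_option autoImplicit false

namespace Pool.Agent.Helper18.SRT

open Finset Filter Topology Matrix Pool.Agent.Helper69.RK Pool.Agent.Helper31.EC Pool.Agent.Helper31.EC.Sp
open Pool.Agent.Helper40.EL Pool.Agent.Helper89.LX Pool.Agent.Helper3.LF Pool.Agent.Helper84.MT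
open Pool.Agent.Helper36.AM Pool.Agent.Helper84.KR Pool.Agent.Helper89.RAK
open Pool.Agent.Helper7.RD (volC volCO volC_eq volC_le_of volCO_le volCO_le_M volCO_nonneg)
open Pool.Agent.Helper18.PRM

noncomputable section

variable {S : Sp} {M m N D : ℕ} {E : ℕ → ℕ} {ι κ : Type}

/-- a prefix of an order with nondecreasing exponents -/
theorem ord_pre {La : Fin N → ℝ} (σ : Equiv.Perm (Fin N)) (h : Monotone fun j => La (σ j)) {j : ℕ} (hj : j ≤ N) :
    Ord La (fun i : Fin j => σ (Fin.castLE hj i)) := by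
  intro a i hi
  have h1 : σ.symm i < Fin.castLE hj a := by
    by_contra hn
    have h2 := h (not_lt.mp hn)
    simp only [Equiv.apply_symm_apply] at h2
    linarith
  have h2 : ((σ.symm i : Fin N) : ℕ) < a := h1
  refine ⟨⟨(σ.symm i : Fin N), h2.trans a.2⟩, h2, ?_⟩
  show σ (Fin.castLE hj ⟨(σ.symm i : Fin N), h2.trans a.2⟩) = i
  have e : Fin.castLE hj ⟨(σ.symm i : Fin N), h2.trans a.2⟩ = σ.symm i := Fin.ext rfl
  rw [e, Equiv.apply_symm_apply]

theorem pre_inj (σ : Equiv.Perm (Fin N)) {j : ℕ} (hj : j ≤ N) :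
    Function.Injective (fun i : Fin j => σ (Fin.castLE hj i)) := fun a b hab => by
  have h1 := σ.injective hab
  exact Fin.castLE_injective hj h1

/-- the frame of a part has degrees at most the degrees of the frame -/
theorem frr_deg {Q : S.VV M} {l : Lab S} {La : Fin M → ℝ} {σ : Fin m → Fin M} {hσ : Function.Injective σ}
    {h0 : ∀ i, 0 ≤ La i} {ho : Ord La σ} (f : Frm Q l La) {d : ℕ} (hd : ∀ k ω j, (f.P k ω j).totalDegree ≤ d)
    (k : ℕ) (ω : (l.sp.F k).Ω) (j : Fin m) : ((frr σ hσ h0 ho f).P k ω j).totalDegree ≤ d :=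
  (cpo_deg hσ (frm_vars f h0 ho k ω j)).trans (hd k ω (σ j))

section srt
variable {Q : S.VV N} {C : LC S} {A : κ → Part S} {l : Lab S} {La : Fin N → ℝ}

/-- the difference of the volume of a prefix and of its expected value -/
def phj (C : LC S) (A : κ → Part S) (Q : S.VV N) (La : Fin N → ℝ) (σ : Equiv.Perm (Fin N)) {j : ℕ} (hj : j ≤ N) : ℝ :=
  volCO C A (vcrd (fun i : Fin j => σ (Fin.castLE hj i)) Q) + ∑ i : Fin j, La (σ (Fin.castLE hj i)) - j

theorem phj_step [Finite κ] (f : Frm Q l La) (hl : l.DMf A) (hC : C.ev l) (h0 : ∀ i, 0 ≤ La i) (h1 : ∀ i, La i ≤ 1)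
    {d : ℕ} (hd : ∀ k ω j, (f.P k ω j).totalDegree ≤ d) (σ : Equiv.Perm (Fin N)) (hm : Monotone fun j => La (σ j))
    {j : ℕ} (hj : j + 1 ≤ N) : phj C A Q La σ hj ≤ phj C A Q La σ (Nat.le_of_succ_le hj) := by
  have h2 := volCO_step (C := C) (Q := Q) (fun i : Fin (j + 1) => σ (Fin.castLE hj i)) (pre_inj σ hj) (Fin.last j)
    (frr _ (pre_inj σ hj) h0 (ord_pre σ hm hj) f) hl hC (fun i => h0 _) (fun i => h1 _) (frr_deg f hd)
  have e : ((fun i : Fin (j + 1) => σ (Fin.castLE hj i)) ∘ (Fin.last j).succAbove) =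
      fun i : Fin j => σ (Fin.castLE (Nat.le_of_succ_le hj) i) := by
    funext i
    show σ (Fin.castLE hj ((Fin.last j).succAbove i)) = _
    rw [Fin.succAbove_last]
    rfl
  rw [e] at h2
  have h3 : ∑ i : Fin (j + 1), La (σ (Fin.castLE hj i)) =
      ∑ i : Fin j, La (σ (Fin.castLE (Nat.le_of_succ_le hj) i)) + La (σ (Fin.castLE hj (Fin.last j))) := by
    rw [Fin.sum_univ_castSucc]
    rfl
  unfold phj
  rw [h3]
  push_cast
  linarith

theorem phj_le [Finite κ] (f : Frm Q l La) (hl : l.DMf A) (hC : C.ev l) (h0 : ∀ i, 0 ≤ La i) (h1 : ∀ i, La i ≤ 1)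
    {d : ℕ} (hd : ∀ k ω j, (f.P k ω j).totalDegree ≤ d) (σ : Equiv.Perm (Fin N)) (hm : Monotone fun j => La (σ j)) :
    ∀ (n j : ℕ) (hj : j + n ≤ N), phj C A Q La σ hj ≤ phj C A Q La σ (Nat.le_of_add_right_le hj) := by
  intro n
  induction n with
  | zero => intro j hj; exact le_rfl
  | succ n ih =>
    intro j hj
    exact (phj_step f hl hC h0 h1 hd σ hm (j := j + n) hj).trans (ih j (Nat.le_of_succ_le hj))

/-- the volume of a permuted point -/
theorem volCO_perm (σ : Equiv.Perm (Fin N)) : volCO C A Q ≤ volCO C A (vcrd σ Q) := by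
  refine le_volCO 0 fun D _ => (volCO_le D).trans ?_
  obtain ⟨x, hx⟩ := (gaq Q D).exists_optfK C A
  rw [volC_prt hx σ σ.injective, volC_eq hx]
  have h1 := prt_vol (σ := (σ : Fin N → Fin N)) (hσ := σ.injective) (P := vcrd σ Q) (Q := Q) (fun _ _ _ => rfl) hx.1.1
  linarith

/-- **SORTED PREFIXES**, any order with nondecreasing exponents -/
theorem srt_perm [Finite κ] (f : Frm Q l La) (hl : l.DMf A) (hC : C.ev l) (h0 : ∀ i, 0 ≤ La i) (h1 : ∀ i, La i ≤ 1)
    {d : ℕ} (hd : ∀ k ω j, (f.P k ω j).totalDegree ≤ d) (hv : (N : ℝ) - ∑ i, La i ≤ volCO C A Q)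
    (σ : Equiv.Perm (Fin N)) (hm : Monotone fun j => La (σ j)) {j : ℕ} (hj : j ≤ N) :
    volCO C A (vcrd (fun i : Fin j => σ (Fin.castLE hj i)) Q) = j - ∑ i : Fin j, La (σ (Fin.castLE hj i)) := by
  have h2 : phj C A Q La σ hj ≤ 0 := by
    have h3 := phj_le f hl hC h0 h1 hd σ hm j 0 (by omega)
    have h4 : phj C A Q La σ (Nat.le_of_add_right_le (show 0 + j ≤ N by omega)) ≤ 0 := by
      unfold phj
      rw [Finset.univ_eq_empty, Finset.sum_empty]
      have h5 := volCO_le_M (C := C) (A := A)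
        (Q := vcrd (fun i : Fin 0 => σ (Fin.castLE (Nat.le_of_add_right_le (show 0 + j ≤ N by omega)) i)) Q)
      linarith
    have e : ∀ (j' : ℕ) (hj' : j' ≤ N) (_ : j' = j), phj C A Q La σ hj' = phj C A Q La σ hj := by
      intro j' hj' h
      subst h
      rfl
    rw [← e (0 + j) (by omega) (Nat.zero_add j)]
    exact h3.trans h4
  have h5 : 0 ≤ phj C A Q La σ hj := by
    have h3 := phj_le f hl hC h0 h1 hd σ hm (N - j) j (by omega)
    have e : ∀ (j' : ℕ) (hj' : j' ≤ N) (_ : j' = N), 0 ≤ phj C A Q La σ hj' := by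
      intro j' hj' h
      subst h
      unfold phj
      have e1 : (fun i : Fin j' => σ (Fin.castLE hj' i)) = σ := rfl
      have e2 : ∑ i : Fin j', La (σ (Fin.castLE hj' i)) = ∑ i, La i := Equiv.sum_comp σ La
      rw [e1, e2]
      have h6 := volCO_perm (C := C) (A := A) (Q := Q) σ
      linarith
    exact (e (j + (N - j)) (by omega) (by omega)).trans h3
  unfold phj at h2 h5
  linarith

end srt

end

end Pool.Agent.Helper18.SRT
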